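import Pool.Agent.H768.C4.Iface2

/-!
# Compactness of the affine classes of convex bodies and semicontinuity of the covering number

`cmp : S_cmp` (task of helper768, MP_eba1ef_gt).
-/

set_option autoImplicit false
set_option linter.unusedSectionVars false

open Set Topology Module

namespace Pool.Agent.H721.C4

open Pool.Agent.H768.C4 (Ed Cov Conv S_cmp)



lemma norm_le_of_coord {d : ℕ} (x : Ed d) (h : ∀ i, |x i| ≤ 2) : ‖x‖ ≤ 2 * ((d : ℝ) + 1) := by
  rw [EuclideanSpace.norm_eq]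
  refine Real.sqrt_le_iff.2 ⟨by positivity, ?_⟩
  calc ∑ i, ‖x i‖ ^ 2 ≤ ∑ i : Fin d, (4 : ℝ) := Finset.sum_le_sum fun i _ => by
        rw [Real.norm_eq_abs]; nlinarith [h i, abs_nonneg (x i)]
    _ = 4 * d := by simp [mul_comm]
    _ ≤ _ := by nlinarith [(Nat.cast_nonneg d : (0 : ℝ) ≤ d)]

/-- Cramer's rule -/
lemma cramer {d : ℕ} (b B : Basis (Fin d) ℝ (Ed d)) (x : Ed d) (i : Fin d) :
    b.det (Function.update B i x) = B.repr x i * b.det B := by
  have h : b.det.toMultilinearMap.toLinearMap (⇑B) i = (b.det B) • B.coord i := by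
    refine B.ext fun j => ?_
    rw [MultilinearMap.toLinearMap_apply, LinearMap.smul_apply, Basis.coord_apply, B.repr_self,
      smul_eq_mul]
    by_cases hij : j = i
    · subst hij
      rw [Function.update_eq_self, Finsupp.single_eq_same, mul_one]
      rfl
    · rw [Finsupp.single_eq_of_ne' hij, mul_zero]
      exact b.det.map_update_self _ (Ne.symm hij)
  have h2 := LinearMap.congr_fun h x
  rw [MultilinearMap.toLinearMap_apply, LinearMap.smul_apply, Basis.coord_apply, smul_eq_mul,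
    mul_comm] at h2
  exact h2

/-- a simplex of maximal volume -/
lemma maxdet {d : ℕ} {K : Set (Ed d)} (hK : IsCompact K) (hi : (interior K).Nonempty) :
    ∃ (x0 : Ed d) (B : Basis (Fin d) ℝ (Ed d)), x0 ∈ K ∧ (∀ i, x0 + B i ∈ K) ∧
      ∀ x ∈ K, ∀ i, |B.repr (x - x0) i| ≤ 1 := by
  classical
  set b : Basis (Fin d) ℝ (Ed d) := (EuclideanSpace.basisFun (Fin d) ℝ).toBasis with hb
  have hcont : Continuous fun p : Ed d × (Fin d → Ed d) => |b.det fun i => p.2 i - p.1| := by
    refine continuous_abs.comp ?_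
    have h1 : (fun p : Ed d × (Fin d → Ed d) => b.det fun i => p.2 i - p.1) =
        fun p => (b.toMatrix fun i => p.2 i - p.1).det := by
      funext p; rw [Basis.det_apply]
    rw [h1]
    refine Continuous.matrix_det ?_
    refine continuous_matrix fun i j => ?_
    have h2 : (fun p : Ed d × (Fin d → Ed d) => b.toMatrix (fun i => p.2 i - p.1) i j) =
        fun p => (p.2 j - p.1) i := by
      funext p
      rw [Basis.toMatrix_apply, hb]
      simp
    rw [h2]
    fun_prop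
  have hS : IsCompact (K ×ˢ (Set.univ.pi fun _ : Fin d => K)) :=
    hK.prod (isCompact_univ_pi fun _ => hK)
  obtain ⟨c, hc⟩ := hi
  have hcK : c ∈ K := interior_subset hc
  obtain ⟨ρ, hρ, hball⟩ := Metric.isOpen_iff.1 isOpen_interior c hc
  obtain ⟨p, hp, hmax⟩ := hS.exists_isMaxOn ⟨(c, fun _ => c), hcK, fun _ _ => hcK⟩
    hcont.continuousOn
  have hmax' : ∀ q ∈ K ×ˢ (Set.univ.pi fun _ : Fin d => K),
      |b.det fun i => q.2 i - q.1| ≤ |b.det fun i => p.2 i - p.1| := fun q hq =>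
    isMaxOn_iff.1 hmax q hq
  have hpos : 0 < |b.det fun i => p.2 i - p.1| := by
    have hq : ((c, fun i => c + (ρ / 2) • b i) : Ed d × (Fin d → Ed d)) ∈
        K ×ˢ (Set.univ.pi fun _ : Fin d => K) := by
      refine ⟨hcK, fun i _ => interior_subset (hball ?_)⟩
      rw [Metric.mem_ball, dist_eq_norm]
      simp only [add_sub_cancel_left]
      rw [norm_smul, hb]
      simp only [OrthonormalBasis.coe_toBasis, EuclideanSpace.basisFun_apply,
        PiLp.norm_single, norm_one, mul_one, Real.norm_eq_abs]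
      rw [abs_of_pos (by positivity)]
      linarith
    refine lt_of_lt_of_le ?_ (hmax' _ hq)
    simp only [add_sub_cancel_left]
    have h1 : (b.det fun i => (ρ / 2) • b i) = (ρ / 2) ^ d := by
      have := b.det.toMultilinearMap.map_smul_univ (fun _ : Fin d => ρ / 2) b
      simp only [Finset.prod_const, Finset.card_univ, Fintype.card_fin, smul_eq_mul] at this
      refine this.trans ?_
      have h2 : b.det.toMultilinearMap b = 1 := b.det_self
      rw [h2, mul_one]
    rw [h1]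
    positivity
  set u : Fin d → Ed d := fun i => p.2 i - p.1 with hu
  have hne : b.det u ≠ 0 := abs_pos.1 hpos
  obtain ⟨hli, hsp⟩ := (b.is_basis_iff_det).2 (isUnit_iff_ne_zero.2 hne)
  set B : Basis (Fin d) ℝ (Ed d) := Basis.mk hli hsp.ge with hB
  have hBu : ⇑B = u := Basis.coe_mk _ _
  refine ⟨p.1, B, hp.1, fun i => ?_, fun x hx i => ?_⟩
  · rw [hBu]
    have : p.1 + u i = p.2 i := by simp [hu]
    rw [this]
    exact hp.2 i (Set.mem_univ i)
  · have h1 := cramer b B (x - p.1) i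
    have h2 : ((p.1, Function.update p.2 i x) : Ed d × (Fin d → Ed d)) ∈
        K ×ˢ (Set.univ.pi fun _ : Fin d => K) := by
      refine ⟨hp.1, fun j _ => ?_⟩
      by_cases hj : j = i
      · subst hj
        simpa using hx
      · simp only [Function.update_of_ne hj]
        exact hp.2 j (Set.mem_univ j)
    have h3 := hmax' _ h2
    have h4 : (fun j => (Function.update p.2 i x) j - p.1) = Function.update (⇑B) i (x - p.1) := by
      funext j
      by_cases hj : j = i
      · subst hj; simp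
      · simp [Function.update_of_ne hj, hBu, hu]
    rw [show (fun j => (p.1, Function.update p.2 i x).2 j - (p.1, Function.update p.2 i x).1) =
      Function.update (⇑B) i (x - p.1) from h4, h1, abs_mul, hBu] at h3
    exact le_of_mul_le_mul_right (by linarith) hpos

/-- the position -/
lemma posn {d : ℕ} {K : Set (Ed d)} (hc : Convex ℝ K) (hK : IsCompact K)
    (hi : (interior K).Nonempty) :
    ∃ T : Ed d ≃ᵃ[ℝ] Ed d, Metric.closedBall 0 1 ⊆ T '' K ∧
      T '' K ⊆ Metric.closedBall 0 (((d : ℝ) + 1) ^ 2 * (2 * ((d : ℝ) + 1))) := by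
  obtain ⟨x0, B, hx0, hxB, hrep⟩ := maxdet hK hi
  have hd : (0 : ℝ) ≤ d := Nat.cast_nonneg d
  have hd1 : (0 : ℝ) < (d : ℝ) + 1 := by positivity
  have hD : (0 : ℝ) < ((d : ℝ) + 1) ^ 2 := by positivity
  set e : Ed d ≃ₗ[ℝ] Ed d := B.equivFun ≪≫ₗ (WithLp.linearEquiv 2 ℝ (Fin d → ℝ)).symm with he
  have hei : ∀ x i, e x i = B.repr x i := fun x i => rfl
  set c : Ed d := WithLp.toLp 2 (fun _ => 1 / ((d : ℝ) + 1)) with hcdef
  have hci : ∀ i, c i = 1 / ((d : ℝ) + 1) := fun i => rfl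
  set e' : Ed d ≃ₗ[ℝ] Ed d := e ≪≫ₗ LinearEquiv.smulOfNeZero ℝ _ (((d : ℝ) + 1) ^ 2) hD.ne' with he'
  have he'x : ∀ x, e' x = (((d : ℝ) + 1) ^ 2) • e x := fun x => rfl
  set T : Ed d ≃ᵃ[ℝ] Ed d := e'.toAffineEquiv.trans
    (AffineEquiv.constVAdd ℝ _ (-(e' x0) - (((d : ℝ) + 1) ^ 2) • c)) with hT
  have hTx : ∀ x, T x = (((d : ℝ) + 1) ^ 2) • (e (x - x0) - c) := by
    intro x
    have : T x = (-(e' x0) - (((d : ℝ) + 1) ^ 2) • c) + e' x := rfl
    rw [this, he'x, he'x, map_sub]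
    module
  refine ⟨T, ?_, ?_⟩
  · intro y hy
    rw [mem_closedBall_zero_iff] at hy
    have hyi : ∀ i, |y i| ≤ 1 := fun i => by
      have := PiLp.norm_apply_le y i
      rw [Real.norm_eq_abs] at this
      linarith
    set z : Fin d → ℝ := fun i => 1 / ((d : ℝ) + 1) + y i / ((d : ℝ) + 1) ^ 2 with hz
    have hz0 : ∀ i, 0 ≤ z i := by
      intro i
      have h1 : -(1 / ((d : ℝ) + 1)) ≤ y i / ((d : ℝ) + 1) ^ 2 := by
        rw [le_div_iff₀ hD]
        have h2 : -(1 / ((d : ℝ) + 1)) * ((d : ℝ) + 1) ^ 2 = -((d : ℝ) + 1) := by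
          field_simp
        rw [h2]
        linarith [(abs_le.1 (hyi i)).1]
      simp only [hz]; linarith
    have hzs : ∑ i, z i ≤ 1 := by
      have h1 : ∀ i, z i ≤ 1 / ((d : ℝ) + 1) + 1 / ((d : ℝ) + 1) ^ 2 := fun i => by
        simp only [hz]
        have := (abs_le.1 (hyi i)).2
        have h3 : y i / ((d : ℝ) + 1) ^ 2 ≤ 1 / ((d : ℝ) + 1) ^ 2 := by gcongr
        linarith
      have h2 := Finset.sum_le_sum fun i (_ : i ∈ (Finset.univ : Finset (Fin d))) => h1 i
      rw [Finset.sum_const, Finset.card_univ, Fintype.card_fin, nsmul_eq_mul] at h2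
      refine h2.trans ?_
      have h3 : (d : ℝ) * (1 / ((d : ℝ) + 1) + 1 / ((d : ℝ) + 1) ^ 2) =
          (d * (d + 2)) / ((d : ℝ) + 1) ^ 2 := by field_simp; ring
      rw [h3, div_le_one hD]
      nlinarith
    refine ⟨x0 + ∑ i, z i • B i, ?_, ?_⟩
    · have h1 : x0 + ∑ i, z i • B i = (1 - ∑ i, z i) • x0 + ∑ i, z i • (x0 + B i) := by
        simp only [smul_add, Finset.sum_add_distrib, ← Finset.sum_smul, sub_smul, one_smul]
        abel
      rw [h1]
      have h2 := hc.sum_mem (t := (Finset.univ : Finset (Option (Fin d))))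
        (w := fun o => o.elim (1 - ∑ i, z i) z) (z := fun o => o.elim x0 (fun i => x0 + B i))
        (by
          intro o _
          cases o with
          | none => simp only [Option.elim]; linarith
          | some i => exact hz0 i)
        (by rw [Fintype.sum_option]; simp)
        (by
          intro o _
          cases o with
          | none => exact hx0
          | some i => exact hxB i)
      rw [Fintype.sum_option] at h2
      exact h2
    · rw [hTx, add_sub_cancel_left]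
      have h1 : e (∑ i, z i • B i) = WithLp.toLp 2 z := by
        ext i
        rw [hei]
        simp [Finsupp.single_apply]
      rw [h1]
      ext i
      change ((d : ℝ) + 1) ^ 2 * (z i - 1 / ((d : ℝ) + 1)) = y i
      simp only [hz, add_sub_cancel_left]
      field_simp
  · rintro _ ⟨x, hx, rfl⟩
    rw [mem_closedBall_zero_iff, hTx, norm_smul, Real.norm_eq_abs, abs_of_pos hD]
    refine mul_le_mul_of_nonneg_left (norm_le_of_coord _ fun i => ?_) hD.le
    change |e (x - x0) i - c i| ≤ 2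
    rw [hei, hci]
    have h1 := hrep x hx i
    have h2 : 1 / ((d : ℝ) + 1) ≤ 1 := by rw [div_le_one hd1]; linarith
    have h3 : 0 ≤ 1 / ((d : ℝ) + 1) := by positivity
    rw [abs_le] at h1 ⊢
    constructor <;> linarith [h1.1, h1.2]



variable {E : Type*} [NormedAddCommGroup E] [NormedSpace ℝ E]

/-- `L` is contained in the `δ`-neighbourhood of `M` -/
def Nb (δ : ℝ) (L M : Set E) : Prop := ∀ x ∈ L, ∃ y ∈ M, dist x y < δ

/-- Blaschke selection -/
lemma blaschke [ProperSpace E] {R : ℝ} (L : ℕ → Set E) (h : ∀ n, IsCompact (L n) ∧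
    (L n).Nonempty ∧ L n ⊆ Metric.closedBall 0 R) :
    ∃ (φ : ℕ → ℕ) (L0 : Set E), StrictMono φ ∧ IsCompact L0 ∧
      ∀ δ : ℝ, 0 < δ → ∃ n0, ∀ n ≥ n0, Nb δ (L (φ n)) L0 ∧ Nb δ L0 (L (φ n)) := by
  classical
  have : CompactSpace (Metric.closedBall (0 : E) R) :=
    isCompact_iff_compactSpace.1 (isCompact_closedBall (0 : E) R)
  have hcl : ∀ n, IsCompact (Subtype.val ⁻¹' (L n) : Set (Metric.closedBall (0 : E) R)) := fun n =>
    ((h n).1.isClosed.preimage continuous_subtype_val).isCompact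
  have hne : ∀ n, (Subtype.val ⁻¹' (L n) : Set (Metric.closedBall (0 : E) R)).Nonempty := by
    intro n
    obtain ⟨x, hx⟩ := (h n).2.1
    exact ⟨⟨x, (h n).2.2 hx⟩, hx⟩
  set M : ℕ → TopologicalSpace.NonemptyCompacts (Metric.closedBall (0 : E) R) := fun n =>
    ⟨⟨_, hcl n⟩, hne n⟩ with hM
  obtain ⟨M0, φ, hφ, hlim⟩ := CompactSpace.tendsto_subseq M
  refine ⟨φ, Subtype.val '' (M0 : Set (Metric.closedBall (0 : E) R)), hφ,
    M0.isCompact.image continuous_subtype_val, fun δ hδ => ?_⟩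
  obtain ⟨n0, hn0⟩ := Metric.tendsto_atTop.1 hlim δ hδ
  refine ⟨n0, fun n hn => ?_⟩
  have h1 := hn0 n hn
  rw [Metric.NonemptyCompacts.dist_eq] at h1
  have hfin : Metric.hausdorffEDist (M (φ n) : Set (Metric.closedBall (0 : E) R)) M0 ≠ ⊤ :=
    Metric.hausdorffEDist_ne_top_of_nonempty_of_bounded (M (φ n)).nonempty M0.nonempty
      (M (φ n)).isCompact.isBounded M0.isCompact.isBounded
  constructor
  · intro x hx
    obtain ⟨y, hy, hxy⟩ := Metric.exists_dist_lt_of_hausdorffDist_lt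
      (x := (⟨x, (h (φ n)).2.2 hx⟩ : Metric.closedBall (0 : E) R)) (s := (M (φ n))) hx h1 hfin
    exact ⟨y, ⟨y, hy, rfl⟩, hxy⟩
  · rintro _ ⟨y, hy, rfl⟩
    obtain ⟨x, hx, hxy⟩ := Metric.exists_dist_lt_of_hausdorffDist_lt' (y := y) hy h1 hfin
    refine ⟨x, hx, ?_⟩
    rw [dist_comm]
    exact hxy

/-- a Hausdorff limit of convex sets is convex -/
lemma convex_of_limit {L : ℕ → Set E} {L0 : Set E} (hL : ∀ n, Convex ℝ (L n)) (h0 : IsClosed L0)
    (h : ∀ δ : ℝ, 0 < δ → ∃ n0, ∀ n ≥ n0, Nb δ (L n) L0 ∧ Nb δ L0 (L n)) : Convex ℝ L0 := by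
  intro x hx y hy a b ha hb hab
  rw [← h0.closure_eq, Metric.mem_closure_iff]
  intro ε hε
  obtain ⟨n0, hn0⟩ := h (ε / 2) (by positivity)
  obtain ⟨h1, h2⟩ := hn0 n0 le_rfl
  obtain ⟨x', hx', hxx⟩ := h2 x hx
  obtain ⟨y', hy', hyy⟩ := h2 y hy
  obtain ⟨z, hz, hzz⟩ := h1 _ (hL n0 hx' hy' ha hb hab)
  refine ⟨z, hz, ?_⟩
  have h3 : dist (a • x + b • y) (a • x' + b • y') ≤ ε / 2 := by
    rw [dist_eq_norm]
    have : a • x + b • y - (a • x' + b • y') = a • (x - x') + b • (y - y') := by module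
    rw [this]
    refine (norm_add_le _ _).trans ?_
    rw [norm_smul, norm_smul, Real.norm_of_nonneg ha, Real.norm_of_nonneg hb, ← dist_eq_norm,
      ← dist_eq_norm]
    calc a * dist x x' + b * dist y y' ≤ a * (ε / 2) + b * (ε / 2) := by
          gcongr
      _ = ε / 2 := by rw [← add_mul, hab, one_mul]
  calc dist (a • x + b • y) z ≤ dist (a • x + b • y) (a • x' + b • y') +
        dist (a • x' + b • y') z := dist_triangle _ _ _
    _ < ε := by linarith

lemma ball_of_limit {L : ℕ → Set E} {L0 : Set E} (hL : ∀ n, Metric.closedBall 0 1 ⊆ L n)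
    (h0 : IsClosed L0)
    (h : ∀ δ : ℝ, 0 < δ → ∃ n0, ∀ n ≥ n0, Nb δ (L n) L0 ∧ Nb δ L0 (L n)) :
    Metric.closedBall 0 1 ⊆ L0 := by
  intro x hx
  rw [← h0.closure_eq, Metric.mem_closure_iff]
  intro ε hε
  obtain ⟨n0, hn0⟩ := h ε hε
  exact (hn0 n0 le_rfl).1 x (hL n0 hx)

/-- from neighbourhoods to dilations -/
lemma nb_sub {L M : Set E} (hM : Convex ℝ M) (h1 : Metric.closedBall 0 1 ⊆ M) {ε : ℝ} (hε : 0 < ε)
    (h : Nb ε L M) : L ⊆ (fun x => (1 + ε) • x) '' M := by
  intro x hx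
  obtain ⟨y, hy, hxy⟩ := h x hx
  have hz : ε⁻¹ • (x - y) ∈ M := by
    apply h1
    rw [mem_closedBall_zero_iff, norm_smul, Real.norm_of_nonneg (by positivity), ← dist_eq_norm,
      inv_mul_le_iff₀ hε]
    linarith
  have h3 := hM hy hz (a := (1 + ε)⁻¹) (b := ε * (1 + ε)⁻¹) (by positivity) (by positivity)
    (by field_simp)
  refine ⟨_, h3, ?_⟩
  have h4 : (1 + ε) ≠ 0 := by positivity
  simp only [smul_add, smul_smul]
  have e1 : (1 + ε) * (1 + ε)⁻¹ = 1 := mul_inv_cancel₀ h4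
  have e2 : (1 + ε) * (ε * (1 + ε)⁻¹ * ε⁻¹) = 1 := by field_simp
  rw [e1, e2]
  simp

/-- a covering by translates of the interior can be shrunk -/
lemma shrink {K : Set E} (hK : IsCompact K) (hc : Convex ℝ K) (h0 : (0 : E) ∈ interior K)
    (T : Finset E) (h : K ⊆ ⋃ t ∈ T, (fun x => t + x) '' interior K) :
    ∃ c : ℝ, 0 < c ∧ c < 1 ∧ K ⊆ ⋃ t ∈ T, (fun x => t + c • x) '' K := by
  classical
  set cc : ℕ → ℝ := fun k => 1 - 1 / ((k : ℝ) + 2) with hcc
  have hc0 : ∀ k, 0 < cc k := fun k => by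
    simp only [hcc]
    have : 1 / ((k : ℝ) + 2) < 1 := by
      rw [div_lt_one (by positivity)]; linarith [(Nat.cast_nonneg k : (0 : ℝ) ≤ k)]
    linarith
  have hc1 : ∀ k, cc k < 1 := fun k => by
    simp only [hcc]
    have : 0 < 1 / ((k : ℝ) + 2) := by positivity
    linarith
  have hcm : Monotone cc := fun i j hij => by
    simp only [hcc]
    have : 1 / ((j : ℝ) + 2) ≤ 1 / ((i : ℝ) + 2) := by gcongr
    linarith
  set U : ℕ → Set E := fun k => ⋃ t ∈ T, (fun x => t + cc k • x) '' interior K with hU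
  have hmono : Monotone U := by
    intro i j hij
    simp only [hU]
    refine iUnion₂_mono fun t _ => ?_
    rintro _ ⟨x, hx, rfl⟩
    refine ⟨(cc i / cc j) • x, ?_, ?_⟩
    · have h1 : cc i / cc j ≤ 1 := (div_le_one (hc0 j)).2 (hcm hij)
      have h2 : 0 < cc i / cc j := div_pos (hc0 i) (hc0 j)
      have h3 := hc.combo_interior_self_mem_interior hx (interior_subset h0) (a := cc i / cc j)
        (b := 1 - cc i / cc j) h2 (by linarith) (by ring)
      simpa using h3
    · simp only [smul_smul]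
      rw [mul_div_cancel₀ _ (hc0 j).ne']
  have hopen : ∀ k, IsOpen (U k) := by
    intro k
    refine isOpen_biUnion fun t _ => ?_
    have h1 : (fun x : E => t + cc k • x) '' interior K =
        (fun x => t + x) '' ((fun x => cc k • x) '' interior K) := by
      rw [image_image]
    rw [h1]
    have h2 : IsOpen ((fun x => cc k • x) '' interior K) := by
      have := (Homeomorph.smulOfNeZero (α := E) (cc k) (hc0 k).ne').isOpenMap _
        (isOpen_interior (s := K))
      exact this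
    exact (Homeomorph.addLeft t).isOpenMap _ h2
  have hcov : K ⊆ ⋃ k, U k := by
    intro x hx
    obtain ⟨t, ht, y, hy, rfl⟩ := mem_iUnion₂.1 (h hx)
    have hlim : Filter.Tendsto (fun k : ℕ => (cc k)⁻¹ • y) Filter.atTop (𝓝 ((1 : ℝ)⁻¹ • y)) := by
      refine Filter.Tendsto.smul_const (Filter.Tendsto.inv₀ ?_ one_ne_zero) y
      have h1 : Filter.Tendsto (fun k : ℕ => 1 / ((k : ℝ) + 2)) Filter.atTop (𝓝 0) := by
        have h2 := (tendsto_const_div_atTop_nhds_zero_nat (1 : ℝ)).comp (Filter.tendsto_add_atTop_nat 2)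
        refine h2.congr fun k => ?_
        simp
      have h3 := h1.const_sub 1
      simpa [hcc] using h3
    rw [inv_one, one_smul] at hlim
    obtain ⟨k, hk⟩ := (hlim.eventually (isOpen_interior.mem_nhds hy)).exists
    refine mem_iUnion.2 ⟨k, mem_iUnion₂.2 ⟨t, ht, (cc k)⁻¹ • y, hk, ?_⟩⟩
    simp only [smul_smul]
    rw [mul_inv_cancel₀ (hc0 k).ne', one_smul]
  obtain ⟨k, hk⟩ := hK.elim_directed_cover U hopen hcov (directed_of_isDirected_le hmono)
  refine ⟨cc k, hc0 k, hc1 k, hk.trans ?_⟩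
  simp only [hU]
  exact iUnion₂_mono fun t _ => image_mono interior_subset


/-- `Cov` is invariant under affine equivalences -/
lemma cov_affine {d N : ℕ} (T : Ed d ≃ᵃ[ℝ] Ed d) {K : Set (Ed d)} (h : Cov N (T '' K)) :
    Cov N K := by
  have h1 : T '' K = (fun x => T 0 + x) '' (T.linear.toContinuousLinearEquiv '' K) := by
    rw [image_image]
    refine image_congr fun x _ => ?_
    have h2 := T.map_vadd 0 x
    simp only [vadd_eq_add, add_zero] at h2
    rw [h2, add_comm]
    rfl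
  rw [h1] at h
  exact Cov.of_image _ (Cov.of_translate _ h)

theorem cmp : S_cmp := by
  classical
  intro d N K hK
  have hpos := fun n => posn (hK n).1 (hK n).2.1 (hK n).2.2.1
  choose T hT1 hT2 using hpos
  have hLc : ∀ n, IsCompact (T n '' K n) := fun n =>
    (hK n).2.1.image (T n).toAffineMap.continuous_of_finiteDimensional
  have hLv : ∀ n, Convex ℝ (T n '' K n) := fun n => (hK n).1.affine_image (T n).toAffineMap
  obtain ⟨φ, L0, hφ, hL0, hnb⟩ := blaschke (fun n => T n '' K n) fun n =>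
    ⟨hLc n, ⟨0, hT1 n (by simp)⟩, hT2 n⟩
  have hv0 : Convex ℝ L0 := convex_of_limit (L := fun n => T (φ n) '' K (φ n))
    (fun n => hLv (φ n)) hL0.isClosed hnb
  have hb0 : Metric.closedBall 0 1 ⊆ L0 := ball_of_limit (L := fun n => T (φ n) '' K (φ n))
    (fun n => hT1 (φ n)) hL0.isClosed hnb
  have hconv : Conv (fun n => T (φ n) '' K (φ n)) L0 := by
    intro ε hε
    obtain ⟨n0, hn0⟩ := hnb ε hε
    exact ⟨n0, fun n hn => ⟨nb_sub hv0 hb0 hε (hn0 n hn).1,
      nb_sub (hLv (φ n)) (hT1 (φ n)) hε (hn0 n hn).2⟩⟩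
  refine ⟨_, φ, fun n => T (φ n), L0, hφ, fun n => ⟨hT1 (φ n), hT2 (φ n)⟩, hv0, hL0, hb0, hconv,
    ?_⟩
  rintro ⟨S, hS, hcov⟩
  have hint : ∀ {M : Set (Ed d)}, Metric.closedBall 0 1 ⊆ M → (0 : Ed d) ∈ interior M :=
    fun hM => mem_interior_iff_mem_nhds.2
      (Filter.mem_of_superset (Metric.closedBall_mem_nhds 0 one_pos) hM)
  obtain ⟨c, hc0, hc1, hc⟩ := shrink hL0 hv0 (hint hb0) S hcov
  obtain ⟨n0, hn0⟩ := hconv ((1 - c) / 4) (by linarith)
  obtain ⟨h1, h2⟩ := hn0 n0 le_rfl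
  refine (hK (φ n0)).2.2.2 (cov_affine (T (φ n0)) ?_)
  set ε : ℝ := (1 - c) / 4 with hε
  have hε0 : 0 < ε := by rw [hε]; linarith
  have hs1 : (1 + ε) * (c * (1 + ε)) < 1 := by
    have h3 : c = 1 - 4 * ε := by rw [hε]; ring
    rw [h3]
    nlinarith [mul_pos hε0 hε0, mul_pos (mul_pos hε0 hε0) hε0]
  refine ⟨S.image fun t => (1 + ε) • t, Finset.card_image_le.trans hS, ?_⟩
  intro x hx
  obtain ⟨y, hy, rfl⟩ := h1 hx
  obtain ⟨t, ht, z, hz, rfl⟩ := mem_iUnion₂.1 (hc hy)
  obtain ⟨w, hw, rfl⟩ := h2 hz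
  have h3 := (hLv (φ n0)).combo_interior_self_mem_interior (hint (hT1 (φ n0))) hw
    (a := 1 - (1 + ε) * (c * (1 + ε))) (b := (1 + ε) * (c * (1 + ε))) (by linarith)
    (by positivity) (by ring)
  rw [smul_zero, zero_add] at h3
  refine mem_iUnion₂.2 ⟨(1 + ε) • t, Finset.mem_image_of_mem _ ht, _, h3, ?_⟩
  simp only [smul_add, smul_smul]

end Pool.Agent.H721.C4
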